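import Pool.Agent.BSH.Stmts

/-!
# Row NAT of the squad BSH (naturality of the generator)
-/

set_option autoImplicit false

namespace Pool.Agent.BSH.H60

open MvPolynomial Pool.Agent.Helper78_ACIT

theorem map_level {A A' : Type} [CommRing A] [CommRing A'] (φ : A →+* A') (r q : ℕ) (t : ℕ → A)
    (i : ℕ) : φ (level r q t i) = level r q (fun m => φ (t m)) i := by
  unfold level
  split_ifs
  · rfl
  · rw [map_sum]
    refine Finset.sum_congr rfl fun m _ => ?_
    rw [map_mul, map_pow, map_pow, map_add, map_natCast, map_one]
  · exact map_zero φ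

theorem level_congr {A : Type} [CommRing A] {r q : ℕ} {t t' : ℕ → A}
    (h : ∀ m < 3 * r, t m = t' m) (i : ℕ) : level r q t i = level r q t' i := by
  unfold level
  split_ifs with h1 h2
  · exact h i h1
  · refine Finset.sum_congr rfl fun m hm => ?_
    rw [h m (Finset.mem_range.mp hm)]
  · rfl

/-- **Row NAT** -/
theorem nat : NatStmt := by
  refine ⟨?_, ?_, ?_⟩
  · intro A A' _ _ φ l
    induction l with
    | zero => intro σ ν t i; rfl
    | succ l ih =>
      intro σ ν t i
      have e : ∀ m, φ (gen l (14 * σ + 28) (3 * ν) t m) =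
          gen l (14 * σ + 28) (3 * ν) (fun m => φ (t m)) m := fun m => ih _ _ t m
      rw [gen, gen, map_level]
      exact level_congr (fun m _ => e m) i
  · intro A _ l
    induction l with
    | zero =>
      intro σ ν t t' h i hi
      rw [gen, gen]
      exact h i (by simpa using hi)
    | succ l ih =>
      intro σ ν t t' h i _
      rw [gen, gen]
      refine level_congr (fun m hm => ?_) i
      refine ih (14 * σ + 28) (3 * ν) t t' (fun m' hm' => h m' ?_) m ?_
      · rw [pow_succ, mul_assoc]
        exact hm'
      · calc m < 3 * (4 ^ l * ν) := hm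
          _ = 4 ^ l * (3 * ν) := by ring
  · intro A _ l σ ν t i hi
    have h4 : 4 * (4 ^ l * ν) ≤ i := by
      calc 4 * (4 ^ l * ν) = 4 ^ (l + 1) * ν := by ring
        _ ≤ i := hi
    rw [gen, level, if_neg (by omega), if_neg (by omega)]

end Pool.Agent.BSH.H60
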